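import Pool.Agent.Helper341.Alt.Final
import Pool.Agent.Y850.US.Rank

set_option autoImplicit false

/-!
# The intersection of the associator ideal and the largest nuclear ideal has infinite rank

The definitions `FreeAlt`, `nucleus`, `Uideal` and `Dideal` are in
`Pool/Agent/Helper928/Nuc/Free.lean`.
-/

namespace Pool.Agent.Results.MP_c4e11e_al.InfiniteRank

open Pool.Agent.Helper928.Nuc.Free Pool.Agent.Y850.US

/-- (1) For every commutative ring `Φ` with `1 ≠ 0` and every infinite set `X`, the free alternative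
`Φ`-algebra on `X` is not separated, and `U ∩ D` contains a family of nonzero elements, indexed by
`X`, which generate independent cyclic `Φ`-submodules. (2) If `Φ` is a field, `U ∩ D` contains a
linearly independent family indexed by `X`; in particular it is infinite-dimensional. -/
theorem result :
    (∀ (Φ : Type) [CommRing Φ] [Nontrivial Φ] (X : Type) [Infinite X],
      Uideal Φ (FreeAlt Φ X) ⊓ Dideal Φ (FreeAlt Φ X) ≠ ⊥ ∧
      ∃ z : X → FreeAlt Φ X, (∀ x, z x ∈ Uideal Φ (FreeAlt Φ X) ⊓ Dideal Φ (FreeAlt Φ X)) ∧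
        (∀ x, z x ≠ 0) ∧
        ∀ c : X →₀ Φ, (c.sum fun x r => r • z x) = 0 → ∀ x, c x • z x = 0) ∧
    (∀ (F : Type) [Field F] (X : Type) [Infinite X],
      (∃ z : X → FreeAlt F X, (∀ x, z x ∈ Uideal F (FreeAlt F X) ⊓ Dideal F (FreeAlt F X)) ∧
        LinearIndependent F z) ∧
      ¬ FiniteDimensional F ↥(Uideal F (FreeAlt F X) ⊓ Dideal F (FreeAlt F X))) := by
  have key : ∀ (Φ : Type) [CommRing Φ] [Nontrivial Φ] (X : Type) [Infinite X],
      Uideal Φ (FreeAlt Φ X) ⊓ Dideal Φ (FreeAlt Φ X) ≠ ⊥ ∧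
      ∃ z : X → FreeAlt Φ X, (∀ x, z x ∈ Uideal Φ (FreeAlt Φ X) ⊓ Dideal Φ (FreeAlt Φ X)) ∧
        (∀ x, z x ≠ 0) ∧
        ∀ c : X →₀ Φ, (c.sum fun x r => r • z x) = 0 → ∀ x, c x • z x = 0 := by
    intro Φ _ _ X _
    have h0 : Uideal Φ (FreeAlt Φ X) ⊓ Dideal Φ (FreeAlt Φ X) ≠ ⊥ :=
      Pool.Agent.Helper817.AllPhi.all Pool.Agent.Helper341.Alt.Final.i3
        Pool.Agent.Helper341.Alt.Final.i5 Φ X
    refine ⟨h0, ?_⟩
    obtain ⟨k, hk, hk0⟩ := Submodule.exists_mem_ne_zero_of_ne_bot h0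
    exact rank (fun f hf a ha => ⟨U_inv f hf a ha.1, D_inv f a ha.2⟩) hk hk0
  refine ⟨key, ?_⟩
  intro F _ X _
  obtain ⟨_, z, hz, hz0, hc⟩ := key F X
  have hli : LinearIndependent F z := by
    rw [linearIndependent_iff]
    intro l hl
    ext x
    rw [Finsupp.linearCombination_apply] at hl
    exact (smul_eq_zero.mp (hc l hl x)).resolve_right (hz0 x)
  refine ⟨⟨z, hz, hli⟩, fun hfin => ?_⟩
  let z' : X → ↥(Uideal F (FreeAlt F X) ⊓ Dideal F (FreeAlt F X)) := fun x => ⟨z x, hz x⟩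
  have hli' : LinearIndependent F z' := LinearIndependent.of_comp
    (Uideal F (FreeAlt F X) ⊓ Dideal F (FreeAlt F X)).subtype hli
  have := hli'.finite
  exact not_finite X

end Pool.Agent.Results.MP_c4e11e_al.InfiniteRank
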